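import Pool.Agent.H282R4.PK.Defs

/-! STUB file (statements only). -/

namespace H282R4.PK

open MeasureTheory
open scoped Real ENNReal
open H282R3.SQ (USq)

/-- T19: combination. -/
theorem combine : ∃ δ : ℝ, 0 < δ ∧ ∀ (n : ℕ) (ι : Type) [Countable ι] (Q : ι → USq) (W : ℝ),
    1 ≤ n → 0 < W → PP n Q W → δ * ((n : ℝ) + 1 / 2) ^ ((3 : ℝ) / 5) ≤ W := by
  sorry

end H282R4.PK
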