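import Pool.Agent.H282R4.PK.Defs

/-! STUB file (statements only). -/

namespace H282R4.PK

open MeasureTheory
open scoped Real ENNReal
open H282R3.SQ (USq)

/-- T2: contact lemma for packings. -/
theorem contact_pk {ι : Type} [Fintype ι] (G : Set (ℝ × ℝ)) (hG : MeasurableSet G) (ω : ℝ)
    (hω : 0 ≤ ω) (hGω : volume G ≤ ENNReal.ofReal ω) (M : ℕ) (hM : Fintype.card ι ≤ M)
    (Fm : ι → USq) (S : Set (ℝ × ℝ)) (hS : Convex ℝ S)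
    (hcov : ∀ x ∈ S, x ∈ G ∨ ∃ i, x ∈ (Fm i).C)
    (hdisj : ∀ i j, i ≠ j → Disjoint (Fm i).O (Fm j).O)
    (T : Set ι) (A B : ι) (hA : A ∈ T) (hB : B ∉ T) (hAS : (Fm A).C ⊆ S) (hBS : (Fm B).C ⊆ S) :
    ∃ i ∈ T, ∃ j ∉ T, rho (Fm i) (Fm j) ≤ 2 * (64 * (M : ℝ) ^ 2 + 2) ^ 2 * ω := by
  sorry

end H282R4.PK
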