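import Pool.Agent.H282R4.PK.Defs

/-! STUB file (statements only). -/

namespace H282R4.PK

open MeasureTheory
open scoped Real ENNReal
open H282R3.SQ (USq)

/-- T11: core of the local lemma. `w = (-b, a)` is the vertical reference vector, `b = -w.1`. -/
theorem LL_core {n : ℕ} {ι : Type} [Countable ι] {Q : ι → USq} {W : ℝ} (h : PP n Q W)
    (z : ℤ × ℤ) (w : ℝ × ℝ) (hw : w.1 ^ 2 + w.2 ^ 2 = 1) (hw2 : |w.1| ≤ w.2 / 4)
    (L : ℕ) (hL : 1 ≤ L) (hLw : L * |w.1| ≤ 1 / 8) :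
    (∫⁻ t in Set.Icc (0 : ℝ) 1, ‖F Q (z.1 + t + L, (z.2 : ℝ)) *
        Complex.exp (2 * π * Complex.I * (-(L * w.1) : ℝ)) - F Q (z.1 + t, (z.2 : ℝ))‖ₑ) *
      (∫⁻ s in Set.Icc (0 : ℝ) 1, ‖FH Q ((z.1 : ℝ), z.2 + s + L) *
        Complex.exp (2 * π * Complex.I * (L * w.1 : ℝ)) - FH Q ((z.1 : ℝ), z.2 + s)‖ₑ) ≤
      ENNReal.ofReal (1000 * Dev Q w (Bx L z)) := by
  sorry

end H282R4.PK
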