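import Pool.Agent.H282R4.PK.Defs

/-! STUB file (statements only). -/

namespace H282R4.PK

open MeasureTheory
open scoped Real ENNReal
open H282R3.SQ (USq)

/-- T12 -/
theorem dev_bound {n : ℕ} {ι : Type} [Countable ι] {Q : ι → USq} {W : ℝ} (h : PP n Q W)
    (z : ℤ × ℤ) (hz : nice Q z) (L : ℕ) :
    Dev Q (-(bet Q z) / Real.sqrt (1 + bet Q z ^ 2), 1 / Real.sqrt (1 + bet Q z ^ 2)) (Bx L z) ≤
      500 * C0 * E Q L z := by
  sorry

end H282R4.PK
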