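import Pool.Agent.H282R4.PK.Defs

/-! STUB file (statements only). -/

namespace H282R4.PK

open MeasureTheory
open scoped Real ENNReal
open H282R3.SQ (USq)

/-- T15: variation of a sum. -/
theorem eVar_add (f g : ℝ → ℝ) (s : Set ℝ) :
    eVariationOn (fun x => f x + g x) s ≤ eVariationOn f s + eVariationOn g s := by
  sorry

/-- T15: variation of a function of the integer part. -/
theorem eVar_floor (κ : ℤ → ℝ) (a b : ℤ) (s : Set ℝ) (hs : ∀ x ∈ s, a ≤ ⌊x⌋ ∧ ⌊x⌋ ≤ b) :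
    eVariationOn (fun x => κ ⌊x⌋) s ≤ ENNReal.ofReal (∑ j ∈ Finset.Icc a (b - 1), |κ (j + 1) - κ j|) := by
  sorry

end H282R4.PK
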