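import Pool.Agent.H282R4.PK.Defs

/-! STUB file (statements only). -/

namespace H282R4.PK

open MeasureTheory
open scoped Real ENNReal
open H282R3.SQ (USq)

/-- T5 -/
theorem F_bottom {n : ℕ} {ι : Type} [Countable ι] {Q : ι → USq} {W : ℝ} (h : PP n Q W)
    (X : ℝ) (h1 : 0 < X) (h2 : X < n + 1 / 2) : F Q (X, -1) = -1 := by
  sorry

/-- T5 -/
theorem F_top {n : ℕ} {ι : Type} [Countable ι] {Q : ι → USq} {W : ℝ} (h : PP n Q W) :
    ∀ᵐ X : ℝ, 0 < X → X < n + 1 / 2 → F Q (X, (n : ℝ) + 2) = 1 := by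
  sorry

end H282R4.PK
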