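import Pool.Agent.H282R4.PK.Defs

/-! STUB file (statements only). -/

namespace H282R4.PK

open MeasureTheory
open scoped Real ENNReal
open H282R3.SQ (USq)

/-- T1a: local finiteness (area). -/
theorem fin_meet {n : ℕ} {ι : Type} {Q : ι → USq} {W : ℝ} (h : PP n Q W) (B : Set (ℝ × ℝ))
    (hB : Bornology.IsBounded B) : {i | ((Q i).C ∩ B).Nonempty}.Finite := by
  sorry

/-- T1a: at most 121 squares in a window (area). -/
theorem card_Rg {n : ℕ} {ι : Type} {Q : ι → USq} {W : ℝ} (h : PP n Q W) (c : ℤ × ℤ)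
    (I : Finset ι) (hI : ∀ i ∈ I, (Q i).C ⊆ Rg c) : I.card ≤ 121 := by
  sorry

/-- T1a -/
theorem measurableSet_Gap {n : ℕ} {ι : Type} [Countable ι] {Q : ι → USq} {W : ℝ}
    (h : PP n Q W) : MeasurableSet (Gap Q) := by
  sorry

/-- T1a -/
theorem exists_meet {n : ℕ} {ι : Type} {Q : ι → USq} {W : ℝ} (h : PP n Q W) (c : ℤ × ℤ)
    (hc : om Q c < 1) : ∃ i, ((Q i).C ∩ cell c).Nonempty := by
  sorry

end H282R4.PK
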