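import Pool.Agent.H282R4.PK.Defs

/-! STUB file (statements only). -/

namespace H282R4.PK

open MeasureTheory
open scoped Real ENNReal
open H282R3.SQ (USq)

/-- T21 -/
theorem waste_lower : ∃ δ : ℝ, 0 < δ ∧ ∀ (n N : ℕ) (Q0 : Fin N → USq), 1 ≤ n →
    (∀ i, (Q0 i).C ⊆ box n) → (∀ i j, i ≠ j → Disjoint (Q0 i).O (Q0 j).O) →
    δ * ((n : ℝ) + 1 / 2) ^ ((3 : ℝ) / 5) ≤ ((n : ℝ) + 1 / 2) ^ 2 - N := by
  sorry

end H282R4.PK
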