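import Pool.Agent.H282R4.PK.Defs

/-! STUB file (statements only). -/

namespace H282R4.PK

open MeasureTheory
open scoped Real ENNReal
open H282R3.SQ (USq)

/-- T16a: start. -/
theorem flow_start {n : ℕ} {ι : Type} [Countable ι] {Q : ι → USq} {W : ℝ} (h : PP n Q W)
    (τ : ℝ) (h0 : 0 < τ) (h1 : τ < 1 / 4) :
    ∃ (P : Set ℝ) (Λ Er m : ℝ → ℝ), FS n Q τ (-1) P Λ Er m 0 0 := by
  sorry

end H282R4.PK
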