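import Pool.Agent.H282R4.PK.Defs

/-! STUB file (statements only). -/

namespace H282R4.PK

open MeasureTheory
open scoped Real ENNReal
open H282R3.SQ (USq)

/-- T16b: one step of the flow. -/
theorem flow_step {n : ℕ} {ι : Type} [Countable ι] {Q : ι → USq} {W : ℝ} (h : PP n Q W)
    (τ : ℝ) (h0 : 0 < τ) (h1 : τ < 1 / 4) (k : ℤ) (hk : -1 ≤ k) (hk2 : k ≤ n + 1)
    (P : Set ℝ) (Λ Er m : ℝ → ℝ) (s e : ℝ) (hs : 0 ≤ s) (he : 0 ≤ e)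
    (hF : FS n Q τ k P Λ Er m s e) :
    ∃ (P' : Set ℝ) (Λ' Er' m' : ℝ → ℝ),
      FS n Q τ (k + 1) P' Λ' Er' m' (s + lvl n Q k) (e + elvl n Q τ k) := by
  sorry

end H282R4.PK
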