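import Pool.Agent.H282R4.PK.Defs

/-! STUB file (statements only). -/

namespace H282R4.PK

open MeasureTheory
open scoped Real ENNReal
open H282R3.SQ (USq)

/-- T5 -/
theorem FH_eq {ι : Type} (Q : ι → USq) (z : ℝ × ℝ) :
    FH Q z = -1 + ∑ᶠ i, (Q i).C.indicator
      (fun z => Complex.exp (2 * π * Complex.I * (Q i).X z) + 1) z := by
  sorry

/-- T5 -/
theorem measurable_F {n : ℕ} {ι : Type} [Countable ι] {Q : ι → USq} {W : ℝ} (h : PP n Q W) :
    Measurable (F Q) := by
  sorry

/-- T5 -/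
theorem measurable_FH {n : ℕ} {ι : Type} [Countable ι] {Q : ι → USq} {W : ℝ} (h : PP n Q W) :
    Measurable (FH Q) := by
  sorry

end H282R4.PK
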