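import Pool.Agent.H282R4.PK.Defs

/-! STUB file (statements only). -/

namespace H282R4.PK

open MeasureTheory
open scoped Real ENNReal
open H282R3.SQ (USq)

/-- T5: on every horizontal line the phase has modulus one almost everywhere. -/
theorem norm_F_horiz {n : ℕ} {ι : Type} [Countable ι] {Q : ι → USq} {W : ℝ} (h : PP n Q W)
    (y : ℝ) : ∀ᵐ X : ℝ, ‖F Q (X, y)‖ = 1 := by
  sorry

/-- T5 -/
theorem norm_F_ae {n : ℕ} {ι : Type} [Countable ι] {Q : ι → USq} {W : ℝ} (h : PP n Q W) :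
    ∀ᵐ z : ℝ × ℝ, ‖F Q z‖ = 1 ∧ ‖FH Q z‖ = 1 := by
  sorry

end H282R4.PK
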