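import Pool.Agent.H282R4.PK.Defs

/-! STUB file (statements only). -/

namespace H282R4.PK

open MeasureTheory
open scoped Real ENNReal
open H282R3.SQ (USq)

/-- T22 (module IsoC): an isometric copy of the unit square in the complex plane. -/
theorem exists_USq_complex (f : ℂ ≃ᵢ ℂ) :
    ∃ Q : USq, (∀ z : ℂ, z ∈ f '' {z : ℂ | 0 ≤ z.re ∧ z.re ≤ 1 ∧ 0 ≤ z.im ∧ z.im ≤ 1} ↔
        (z.re, z.im) ∈ Q.C) ∧
      (∀ z : ℂ, z ∈ f '' {z : ℂ | 0 < z.re ∧ z.re < 1 ∧ 0 < z.im ∧ z.im < 1} ↔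
        (z.re, z.im) ∈ Q.O) := by
  sorry

end H282R4.PK
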