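import Pool.Agent.H282R4.PK.Defs

/-! STUB file (statements only). -/

namespace H282R4.PK

open MeasureTheory
open scoped Real ENNReal
open H282R3.SQ (USq)

/-- T6: the phase along one line in the direction of the vertical reference vector `w`. -/
theorem line_F {n : ℕ} {ι : Type} [Countable ι] {Q : ι → USq} {W : ℝ} (h : PP n Q W)
    (z0 w : ℝ × ℝ) (hw : w.1 ^ 2 + w.2 ^ 2 = 1) (hw2 : |w.1| ≤ w.2 / 4) (ℓ : ℝ) (hℓ : 0 ≤ ℓ)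
    (I : Finset ι) (hI : ∀ i, ∀ s ∈ Set.Icc 0 ℓ, z0 + s • w ∈ (Q i).C → i ∈ I)
    (hgen : ∀ᵐ s : ℝ, s ∈ Set.Icc 0 ℓ → ∀ i j, z0 + s • w ∈ (Q i).C → z0 + s • w ∈ (Q j).C →
      i = j) :
    ‖F Q (z0 + ℓ • w) * Complex.exp (-(2 * π * Complex.I * ℓ)) - F Q z0‖ ≤
      2 * π * (volume {s : ℝ | s ∈ Set.Icc 0 ℓ ∧ z0 + s • w ∈ Gap Q}).toReal +
      ∑ i ∈ I, (2 * π * |1 - (-(Q i).b * w.1 + (Q i).a * w.2)| *
          (volume {s : ℝ | s ∈ Set.Icc 0 ℓ ∧ z0 + s • w ∈ (Q i).C}).toReal +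
        {i | ∃ s ∈ Set.Icc 0 ℓ, z0 + s • w ∈ (Q i).C ∧ |(Q i).X (z0 + s • w)| = 1 / 2}.indicator
          (fun _ => (4 : ℝ)) i) := by
  sorry

end H282R4.PK
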