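import Pool.Agent.H282R4.PK.Defs

/-! STUB file (statements only). -/

namespace H282R4.PK

open MeasureTheory
open scoped Real ENNReal
open H282R3.SQ (USq)

/-- T9: identity along one line in the row direction `u = (w.2, -w.1)`. -/
theorem line_G {n : ℕ} {ι : Type} [Countable ι] {Q : ι → USq} {W : ℝ} (h : PP n Q W)
    (z0 w : ℝ × ℝ) (hw : w.1 ^ 2 + w.2 ^ 2 = 1) (hw2 : |w.1| ≤ w.2 / 4) (ℓ : ℝ) (hℓ : 0 ≤ ℓ)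
    (I : Finset ι)
    (hI : ∀ i, ∀ s ∈ Set.Icc 0 ℓ, z0 + s • (w.2, -w.1) ∈ (Q i).C → i ∈ I)
    (hgen : ∀ᵐ s : ℝ, s ∈ Set.Icc 0 ℓ → ∀ i j, z0 + s • (w.2, -w.1) ∈ (Q i).C →
      z0 + s • (w.2, -w.1) ∈ (Q j).C → i = j)
    (hgen0 : ∀ i j, z0 ∈ (Q i).C → z0 ∈ (Q j).C →
      i = j ∨ (|(Q i).X z0| = 1 / 2 ∧ |(Q j).X z0| = 1 / 2))
    (hgen1 : ∀ i j, z0 + ℓ • (w.2, -w.1) ∈ (Q i).C → z0 + ℓ • (w.2, -w.1) ∈ (Q j).C →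
      i = j ∨ (|(Q i).X (z0 + ℓ • (w.2, -w.1))| = 1 / 2 ∧
        |(Q j).X (z0 + ℓ • (w.2, -w.1))| = 1 / 2)) :
    ‖Gf Q (z0 + ℓ • (w.2, -w.1)) * Complex.exp (2 * π * Complex.I * ℓ) - Gf Q z0 -
        2 * π * Complex.I * ∫ s in (0 : ℝ)..ℓ,
          Complex.exp (2 * π * Complex.I * s) * F Q (z0 + s • (w.2, -w.1))‖ ≤
      2 * π * (volume {s : ℝ | s ∈ Set.Icc 0 ℓ ∧ z0 + s • (w.2, -w.1) ∈ Gap Q}).toReal +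
      ∑ i ∈ I, (6 * π * |(Q i).a * w.1 + (Q i).b * w.2| *
          (volume {s : ℝ | s ∈ Set.Icc 0 ℓ ∧ z0 + s • (w.2, -w.1) ∈ (Q i).C}).toReal +
        {i | ∃ s ∈ Set.Icc 0 ℓ, z0 + s • (w.2, -w.1) ∈ (Q i).C ∧
          |(Q i).Y (z0 + s • (w.2, -w.1))| = 1 / 2}.indicator (fun _ => (4 : ℝ)) i) := by
  sorry

end H282R4.PK
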