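import Pool.Agent.H282R4.PK.Defs

/-! STUB file (statements only). -/

namespace H282R4.PK

open MeasureTheory
open scoped Real ENNReal
open H282R3.SQ (USq)

/-- T10: integrated version. -/
theorem line_id {n : ℕ} {ι : Type} [Countable ι] {Q : ι → USq} {W : ℝ} (h : PP n Q W)
    (z0 w : ℝ × ℝ) (hw : w.1 ^ 2 + w.2 ^ 2 = 1) (hw2 : |w.1| ≤ w.2 / 4) (t1 t2 ℓ : ℝ)
    (hℓ : 0 ≤ ℓ) (B : Set (ℝ × ℝ)) (hBm : MeasurableSet B) (hB : Bornology.IsBounded B)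
    (hsub : ∀ t ∈ Set.Icc t1 t2, ∀ s ∈ Set.Icc 0 ℓ, z0 + t • w + s • (w.2, -w.1) ∈ B) :
    ∫⁻ t in Set.Icc t1 t2, ‖Gf Q (z0 + t • w + ℓ • (w.2, -w.1)) *
        Complex.exp (2 * π * Complex.I * ℓ) - Gf Q (z0 + t • w) -
        2 * π * Complex.I * ∫ s in (0 : ℝ)..ℓ,
          Complex.exp (2 * π * Complex.I * s) * F Q (z0 + t • w + s • (w.2, -w.1))‖ₑ ≤
      ENNReal.ofReal (40 * Dev Q w B) := by
  sorry

end H282R4.PK
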