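import Pool.Agent.H282R4.PK.Defs

/-! STUB file (statements only). -/

namespace H282R4.PK

open MeasureTheory
open scoped Real ENNReal
open H282R3.SQ (USq)

/-- T13: local lemma. -/
theorem local_lemma {n : ℕ} {ι : Type} [Countable ι] {Q : ι → USq} {W : ℝ} (h : PP n Q W)
    (z : ℤ × ℤ) (hz : nice Q z) (L : ℕ) (hL : 1 ≤ L) (hLb : L * |bet Q z| ≤ 1 / 8) :
    ENNReal.ofReal (L * |bet Q z|) ≤ U Q L z ∨ ENNReal.ofReal (L * |bet Q z|) ≤ V Q L z ∨
      (L * bet Q z) ^ 2 ≤ 10 ^ 20 * E Q L z := by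
  sorry

end H282R4.PK
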