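import Pool.Agent.H282R4.PK.Defs

/-! STUB file (statements only). -/

namespace H282R4.PK

open MeasureTheory
open scoped Real ENNReal
open H282R3.SQ (USq)

/-- T8: one step of the vertical flow. -/
theorem one_step {n : ℕ} {ι : Type} [Countable ι] {Q : ι → USq} {W : ℝ} (h : PP n Q W)
    (c : ℤ × ℤ) (hc : nice Q c) :
    ∫⁻ X in Set.Icc (c.1 : ℝ) (c.1 + 1),
      ‖F Q (X - bet Q c, (c.2 : ℝ) + 1) -
        Complex.exp (Complex.I * ((2 * π * (Real.sqrt (1 + bet Q c ^ 2) - 1) : ℝ) : ℂ)) *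
          F Q (X, (c.2 : ℝ))‖ₑ ≤ ENNReal.ofReal (10 ^ 20 * om Q c) := by
  sorry

end H282R4.PK
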