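import Pool.Agent.H282R4.PK.Defs

/-! STUB file (statements only). -/

namespace H282R4.PK

open MeasureTheory
open scoped Real ENNReal
open H282R3.SQ (USq)

/-- T20: extension of a packing of the container to the plane. -/
theorem exists_PP (n N : ℕ) (Q0 : Fin N → USq) (hin : ∀ i, (Q0 i).C ⊆ box n)
    (hdisj : ∀ i j, i ≠ j → Disjoint (Q0 i).O (Q0 j).O) :
    ∃ (ι : Type) (_ : Countable ι) (Q : ι → USq), PP n Q (((n : ℝ) + 1 / 2) ^ 2 - N) := by
  sorry

end H282R4.PK
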