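import Pool.Agent.H282R4.PK.Defs

/-! STUB file (statements only). -/

namespace H282R4.PK

open MeasureTheory
open scoped Real ENNReal
open H282R3.SQ (USq)

/-- T3: rigidity. -/
theorem rig {n : ℕ} {ι : Type} [Countable ι] {Q : ι → USq} {W : ℝ} (h : PP n Q W) (c : ℤ × ℤ)
    (i j : ι) (hi : (Q i).C ⊆ Kg c) (hj : (Q j).C ⊆ Kg c) :
    rho (Q i) (Q j) ≤ C0 * om Q c := by
  sorry

end H282R4.PK
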