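import Pool.Agent.H282R4.PK.Defs

/-! STUB file (statements only). -/

namespace H282R4.PK

open MeasureTheory
open scoped Real ENNReal
open H282R3.SQ (USq)

/-- T15: shift lemma. -/
theorem shift_var (P : Set ℝ) (hP : MeasurableSet P) (Λ : ℝ → ℝ) (hΛ : Measurable Λ)
    (L : ℕ) (hL : 1 ≤ L) :
    ∫⁻ X in {X : ℝ | X ∈ P ∧ X + L ∈ P}, ENNReal.ofReal |Λ (X + L) - Λ X| ≤
      L * eVariationOn Λ P := by
  sorry

end H282R4.PK
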