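import Pool.Agent.H282R4.PK.Defs

/-! STUB file (statements only). -/

namespace H282R4.PK

open MeasureTheory
open scoped Real ENNReal
open H282R3.SQ (USq)

/-- T4 -/
theorem slope_lemma (Q Q' : USq) (h1 : |Q.b| ≤ Q.a) (h2 : |Q'.b| ≤ Q'.a)
    (hs : |slope Q| ≤ 1 / 4) (hr : rho Q Q' ≤ 1 / 16) :
    |slope Q' - slope Q| ≤ 2 * rho Q Q' := by
  sorry

/-- T4: the deviation is controlled by rho when the reference slope is at most 1/4. -/
theorem dev_le_rho (Q Q' : USq) (h1 : |Q.b| ≤ Q.a) (h2 : |Q'.b| ≤ Q'.a)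
    (hs : |slope Q| ≤ 1 / 4) : |Q.a * Q'.b - Q.b * Q'.a| ≤ 2 * rho Q Q' := by
  sorry

end H282R4.PK
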