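import Pool.Agent.H282R4.PK.Defs

/-! STUB file (statements only). -/

namespace H282R4.PK

open MeasureTheory
open scoped Real ENNReal
open H282R3.SQ (USq)

/-- T4 -/
theorem gam_nonneg {ι : Type} (Q : ι → USq) (c : ℤ × ℤ) : 0 ≤ gam Q c := by
  sorry

/-- T4 -/
theorem bet_le {ι : Type} (Q : ι → USq) (c : ℤ × ℤ) : |bet Q c| ≤ 1 / 4 := by
  sorry

/-- T4 -/
theorem gam_le {ι : Type} (Q : ι → USq) (c : ℤ × ℤ) : gam Q c ≤ 1 / 4 := by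
  sorry

/-- T4 -/
theorem slope_close {n : ℕ} {ι : Type} [Countable ι] {Q : ι → USq} {W : ℝ} (h : PP n Q W)
    (c : ℤ × ℤ) (hc : nice Q c) (i : ι) (hi : (Q i).C ⊆ Kg c) :
    |slope (Q i) - bet Q c| ≤ 2 * C0 * om Q c := by
  sorry

/-- T4 -/
theorem gam_close {n : ℕ} {ι : Type} [Countable ι] {Q : ι → USq} {W : ℝ} (h : PP n Q W)
    (c c' : ℤ × ℤ) (h1 : |c.1 - c'.1| ≤ 1) (h2 : |c.2 - c'.2| ≤ 1) :
    |gam Q c - gam Q c'| ≤ 4 * C0 * (om Q c + om Q c') := by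
  sorry

/-- T4 -/
theorem bet_close {n : ℕ} {ι : Type} [Countable ι] {Q : ι → USq} {W : ℝ} (h : PP n Q W)
    (c c' : ℤ × ℤ) (h1 : |c.1 - c'.1| ≤ 1) (h2 : |c.2 - c'.2| ≤ 1) (hc : nice Q c)
    (hc' : nice Q c') : |bet Q c - bet Q c'| ≤ 4 * C0 * (om Q c + om Q c') := by
  sorry

/-- T4: near the outside the slopes are small. -/
theorem wall {n : ℕ} {ι : Type} [Countable ι] {Q : ι → USq} {W : ℝ} (h : PP n Q W)
    (c : ℤ × ℤ) (z : ℝ × ℝ) (hz : z ∉ box n) (h1 : (c.1 : ℝ) - 1 ≤ z.1) (h2 : z.1 ≤ c.1 + 2)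
    (h3 : (c.2 : ℝ) - 1 ≤ z.2) (h4 : z.2 ≤ c.2 + 2) :
    gam Q c ≤ 4 * C0 * om Q c ∧ |bet Q c| ≤ 4 * C0 * om Q c := by
  sorry

/-- T4: far outside there is no waste and no slope. -/
theorem far_bet {n : ℕ} {ι : Type} [Countable ι] {Q : ι → USq} {W : ℝ} (h : PP n Q W)
    (c : ℤ × ℤ) (hc : c.1 < -6 ∨ (n : ℤ) + 6 < c.1) : bet Q c = 0 := by
  sorry

end H282R4.PK
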