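import Pool.Agent.H282R4.PK.Defs

/-! STUB file (statements only). -/

namespace H282R4.PK

open MeasureTheory
open scoped Real ENNReal
open H282R3.SQ (USq)

/-- T14 -/
theorem sum_E {n : ℕ} {ι : Type} [Countable ι] {Q : ι → USq} {W : ℝ} (h : PP n Q W)
    (L : ℕ) (hL : 1 ≤ L) (Z : Finset (ℤ × ℤ)) :
    ∑ z ∈ Z, E Q L z ≤ 2 * 10 ^ 5 * (L : ℝ) ^ 3 * W := by
  sorry

end H282R4.PK
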