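import Pool.Agent.H282R4.PK.Defs

/-! STUB file (statements only). -/

namespace H282R4.PK

open MeasureTheory
open scoped Real ENNReal
open H282R3.SQ (USq)

/-- T1a: every point of the gap lies in 121 windows. -/
theorem sum_om {n : ℕ} {ι : Type} [Countable ι] {Q : ι → USq} {W : ℝ} (h : PP n Q W)
    (Z : Finset (ℤ × ℤ)) : ∑ c ∈ Z, om Q c ≤ 121 * W := by
  sorry

end H282R4.PK
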