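import Pool.Agent.H282R4.PK.Defs

/-! STUB file (statements only). -/

namespace H282R4.PK

open MeasureTheory
open scoped Real ENNReal
open H282R3.SQ (USq)

/-- T17 -/
theorem sum_U {n : ℕ} {ι : Type} [Countable ι] {Q : ι → USq} {W : ℝ} (h : PP n Q W)
    (τ : ℝ) (h0 : 0 < τ) (h1 : τ < 1 / 4) (L : ℕ) (hL : 1 ≤ L) (k : ℤ) (hk : 0 ≤ k)
    (hk2 : k ≤ n) :
    ∫⁻ X in Set.Icc (0 : ℝ) (n + 1 / 2 - L), ‖F Q (X + L, (k : ℝ)) - F Q (X, (k : ℝ))‖ₑ ≤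
      ENNReal.ofReal (10 ^ 23 * (W / τ + L * τ * W)) := by
  sorry

/-- T17: by transposition -/
theorem sum_V {n : ℕ} {ι : Type} [Countable ι] {Q : ι → USq} {W : ℝ} (h : PP n Q W)
    (τ : ℝ) (h0 : 0 < τ) (h1 : τ < 1 / 4) (L : ℕ) (hL : 1 ≤ L) (k : ℤ) (hk : 0 ≤ k)
    (hk2 : k ≤ n) :
    ∫⁻ Y in Set.Icc (0 : ℝ) (n + 1 / 2 - L), ‖FH Q ((k : ℝ), Y + L) - FH Q ((k : ℝ), Y)‖ₑ ≤
      ENNReal.ofReal (10 ^ 23 * (W / τ + L * τ * W)) := by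
  sorry

end H282R4.PK
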