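import Pool.Agent.H282R4.PK.Defs

/-! STUB file (statements only). -/

namespace H282R4.PK

open MeasureTheory
open scoped Real ENNReal
open H282R3.SQ (USq)

/-- T15: transport by piecewise translations. -/
theorem transport (J : Finset ℤ) (S : ℤ → Set ℝ) (hS : ∀ j ∈ J, MeasurableSet (S j)) (b : ℤ → ℝ)
    (hd : ∀ i ∈ J, ∀ j ∈ J, i ≠ j →
      Disjoint ((fun X => X - b i) '' S i) ((fun X => X - b j) '' S j))
    (f : ℤ → ℝ → ℝ≥0∞) (hf : ∀ j ∈ J, Measurable (f j)) :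
    ∫⁻ X in ⋃ j ∈ J, (fun X => X - b j) '' S j,
      ∑ j ∈ J, ((fun X => X - b j) '' S j).indicator (fun X => f j (X + b j)) X =
      ∑ j ∈ J, ∫⁻ X in S j, f j X := by
  sorry

end H282R4.PK
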