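import Pool.Agent.H282R4.PK.St.Geo
import Pool.Agent.H282R4.PK.St.Fin
import Pool.Agent.H282R4.PK.St.SumOm
import Pool.Agent.H282R4.PK.St.Contact
import Pool.Agent.H282R4.PK.St.Cluster
import Pool.Agent.H282R4.PK.St.Rig
import Pool.Agent.H282R4.PK.St.SlopeLem
import Pool.Agent.H282R4.PK.St.Slopes
import Pool.Agent.H282R4.PK.St.Fmeas
import Pool.Agent.H282R4.PK.St.Fnorm
import Pool.Agent.H282R4.PK.St.Fends
import Pool.Agent.H282R4.PK.St.LineF
import Pool.Agent.H282R4.PK.St.LineInt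
import Pool.Agent.H282R4.PK.St.OneStep
import Pool.Agent.H282R4.PK.St.LineG
import Pool.Agent.H282R4.PK.St.LineId
import Pool.Agent.H282R4.PK.St.Core
import Pool.Agent.H282R4.PK.St.DevBound
import Pool.Agent.H282R4.PK.St.Local
import Pool.Agent.H282R4.PK.St.SumE
import Pool.Agent.H282R4.PK.St.Transport
import Pool.Agent.H282R4.PK.St.EVar
import Pool.Agent.H282R4.PK.St.Shift
import Pool.Agent.H282R4.PK.St.FlowStart
import Pool.Agent.H282R4.PK.St.FlowStep
import Pool.Agent.H282R4.PK.St.Flow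
import Pool.Agent.H282R4.PK.St.SumUV
import Pool.Agent.H282R4.PK.St.Energy
import Pool.Agent.H282R4.PK.St.Combine
import Pool.Agent.H282R4.PK.St.Pinwheel
import Pool.Agent.H282R4.PK.St.Final
import Pool.Agent.H282R4.PK.St.IsoC
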