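import Pool.Agent.H282R4.PK.Defs

/-! STUB file (statements only). -/

namespace H282R4.PK

open MeasureTheory
open scoped Real ENNReal
open H282R3.SQ (USq)

/-- T16c: the flow at level `k`. -/
theorem flow {n : ℕ} {ι : Type} [Countable ι] {Q : ι → USq} {W : ℝ} (h : PP n Q W)
    (τ : ℝ) (h0 : 0 < τ) (h1 : τ < 1 / 4) (k : ℤ) (hk : -1 ≤ k) (hk2 : k ≤ n + 2) :
    ∃ (P : Set ℝ) (Λ Er m : ℝ → ℝ) (s e : ℝ), FS n Q τ k P Λ Er m s e ∧ 0 ≤ s ∧ 0 ≤ e ∧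
      s ≤ 121 * W ∧ lvl n Q k ≤ 121 * W ∧ e ≤ energy n Q τ := by
  sorry

end H282R4.PK
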