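import Pool.Agent.H282R4.PK.Defs

/-! STUB file (statements only). -/

namespace H282R4.PK

open MeasureTheory
open scoped Real ENNReal
open H282R3.SQ (USq)

/-- T1a -/
theorem mem_tr_C (Q : USq) (z : ℝ × ℝ) : z ∈ (tr Q).C ↔ (z.2, z.1) ∈ Q.C := by
  sorry

/-- T1a -/
theorem mem_tr_O (Q : USq) (z : ℝ × ℝ) : z ∈ (tr Q).O ↔ (z.2, z.1) ∈ Q.O := by
  sorry

/-- T1a -/
theorem PP.trans {n : ℕ} {ι : Type} {Q : ι → USq} {W : ℝ} (h : PP n Q W) :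
    PP n (fun i => tr (Q i)) W := by
  sorry

/-- T1a: two points of a unit square. -/
theorem diam (Q : USq) (x y : ℝ × ℝ) (hx : x ∈ Q.C) (hy : y ∈ Q.C) :
    |x.1 - y.1| < 3 / 2 ∧ |x.2 - y.2| < 3 / 2 := by
  sorry

end H282R4.PK
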